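import Pool.Agent.Helper71.E5.Stmts

/-! MP_efd95c_co, Alexander for at most five disks: row LG (the length functions). -/

set_option autoImplicit false

open Complex

namespace E5

theorem sq4_pos {d : ℝ} (h0 : 0 ≤ d) (h2 : d < 2) : 0 < Real.sqrt (4 - d ^ 2) :=
  Real.sqrt_pos.mpr (by nlinarith)

theorem sq_half {d : ℝ} : Real.sqrt (1 - (d / 2) ^ 2) = Real.sqrt (4 - d ^ 2) / 2 := by
  have h : (1 - (d / 2) ^ 2 : ℝ) = (4 - d ^ 2) / 2 ^ 2 := by ring
  rw [h, Real.sqrt_div' _ (by positivity), Real.sqrt_sq (by norm_num)]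

theorem lg_eq (x y : ℂ) : lg x y = 2 * Real.arcsin (dist x y / 2) := by
  simp [lg, AX.dl]

theorem lg_comm (x y : ℂ) : lg x y = lg y x := by
  rw [lg_eq, lg_eq, dist_comm]

theorem tn_comm (x y : ℂ) : tn x y = tn y x := by
  simp only [tn, dist_comm x y]

theorem om_comm (x y : ℂ) : om x y = om y x := by
  simp only [om, dist_comm x y]

theorem lg_mono {x y z w : ℂ} (h : dist x y ≤ dist z w) : lg x y ≤ lg z w := by
  rw [lg_eq, lg_eq]
  have := Real.monotone_arcsin (show dist x y / 2 ≤ dist z w / 2 by linarith)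
  linarith

theorem tn_mono {x y z w : ℂ} (h : dist x y ≤ dist z w) (h2 : dist z w < 2) :
    tn x y ≤ tn z w := by
  unfold tn
  have h0 : 0 ≤ dist x y := dist_nonneg
  have h1 : 0 < Real.sqrt (4 - dist z w ^ 2) := sq4_pos dist_nonneg h2
  have h3 : Real.sqrt (4 - dist z w ^ 2) ≤ Real.sqrt (4 - dist x y ^ 2) :=
    Real.sqrt_le_sqrt (by nlinarith)
  exact div_le_div₀ dist_nonneg h h1 h3

theorem lg_nonneg (x y : ℂ) : 0 ≤ lg x y := by
  rw [lg_eq]
  have := Real.arcsin_nonneg.mpr (show (0 : ℝ) ≤ dist x y / 2 by positivity)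
  linarith

theorem lg_le_pi (x y : ℂ) : lg x y ≤ Real.pi := by
  rw [lg_eq]
  have := Real.arcsin_le_pi_div_two (dist x y / 2)
  linarith

theorem lg_pos {x y : ℂ} (h : x ≠ y) : 0 < lg x y := by
  rw [lg_eq]
  have hd : 0 < dist x y := dist_pos.mpr h
  have := Real.arcsin_pos.mpr (show (0 : ℝ) < dist x y / 2 by positivity)
  linarith

theorem lg_lt_pi {x y : ℂ} (h : dist x y < 2) : lg x y < Real.pi := by
  rw [lg_eq]
  have := Real.arcsin_lt_pi_div_two.mpr (show dist x y / 2 < 1 by linarith)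
  linarith

theorem tn_eq_tan {x y : ℂ} : tn x y = Real.tan (lg x y / 2) := by
  rw [lg_eq, mul_div_cancel_left₀ _ (two_ne_zero), Real.tan_arcsin, sq_half]
  unfold tn
  rw [div_div_div_cancel_right₀ (two_ne_zero)]

theorem lg_eq_arctan {x y : ℂ} (h : dist x y < 2) : lg x y = 2 * Real.arctan (tn x y) := by
  rw [tn_eq_tan, Real.arctan_tan]
  · ring
  · have := lg_nonneg x y
    have := Real.pi_pos
    linarith
  · have := lg_lt_pi h
    linarith

theorem tn_nonneg (x y : ℂ) : 0 ≤ tn x y := by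
  unfold tn
  positivity

theorem tn_pos {x y : ℂ} (h : x ≠ y) (h2 : dist x y < 2) : 0 < tn x y := by
  unfold tn
  exact div_pos (dist_pos.mpr h) (sq4_pos dist_nonneg h2)

theorem om_pos {x y : ℂ} (h : x ≠ y) (h2 : dist x y < 2) : 0 < om x y := by
  unfold om
  exact div_pos two_pos (mul_pos (dist_pos.mpr h) (sq4_pos dist_nonneg h2))

theorem sin_lg (x y : ℂ) (h2 : dist x y < 2) :
    Real.sin (lg x y) = dist x y * Real.sqrt (4 - dist x y ^ 2) / 2 := by
  have h0 : 0 ≤ dist x y := dist_nonneg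
  rw [lg_eq, Real.sin_two_mul, Real.sin_arcsin (by linarith) (by linarith), Real.cos_arcsin,
    sq_half]
  ring

theorem om_eq_sin {x y : ℂ} (h2 : dist x y < 2) : om x y = 1 / Real.sin (lg x y) := by
  rw [sin_lg x y h2]
  unfold om
  rw [one_div_div]

theorem om_mul_sq {x y : ℂ} (h : x ≠ y) (h2 : dist x y < 2) :
    om x y * dist x y ^ 2 = 2 * tn x y := by
  have hd : dist x y ≠ 0 := (dist_pos.mpr h).ne'
  have hs : Real.sqrt (4 - dist x y ^ 2) ≠ 0 := (sq4_pos dist_nonneg h2).ne'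
  unfold om tn
  field_simp

theorem LG : ST_LG := by
  refine ⟨fun x y => ⟨lg_comm x y, tn_comm x y, om_comm x y⟩, fun x y z w h => lg_mono h,
    fun x y z w h h2 => tn_mono h h2, fun x y => ⟨lg_nonneg x y, lg_le_pi x y⟩,
    fun x y h => lg_pos h,
    fun x y h => ⟨lg_lt_pi h, tn_eq_tan, lg_eq_arctan h, tn_nonneg x y⟩,
    fun x y h h2 => ⟨tn_pos h h2, om_pos h h2, om_eq_sin h2, om_mul_sq h h2⟩⟩

end E5
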