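import Pool.Agent.Helper36.E5.LG

/-! MP_efd95c_co, Alexander for at most five disks: row ONARC (points on a unit circle). -/

set_option autoImplicit false

open Complex

namespace E5

theorem e_add (s t : ℝ) : AX.e (s + t) = AX.e s * AX.e t := by
  unfold AX.e
  rw [← Complex.exp_add]
  congr 1
  push_cast
  ring

theorem norm_e (s : ℝ) : ‖AX.e s‖ = 1 := by
  unfold AX.e
  exact Complex.norm_exp_ofReal_mul_I s

theorem e_eq (s : ℝ) : AX.e s = (Real.cos s : ℂ) + (Real.sin s : ℂ) * I := by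
  unfold AX.e
  rw [Complex.exp_mul_I, Complex.ofReal_cos, Complex.ofReal_sin]

theorem e_neg_mul (s : ℝ) : AX.e s * AX.e (-s) = 1 := by
  rw [← e_add, add_neg_cancel]
  simp [AX.e]

theorem dist_onarc (x : ℂ) {s t : ℝ} (h1 : s ≤ t) (h2 : t ≤ s + 2 * Real.pi) :
    dist (x - AX.e s) (x - AX.e t) = 2 * Real.sin ((t - s) / 2) := by
  have h : (x - AX.e s) - (x - AX.e t) = AX.e s * (Complex.exp (I * ((t - s : ℝ) : ℂ)) - 1) := by
    have : AX.e t = AX.e s * AX.e (t - s) := by rw [← e_add]; congr 1; ring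
    rw [this]
    have h3 : AX.e (t - s) = Complex.exp (I * ((t - s : ℝ) : ℂ)) := by
      unfold AX.e; rw [mul_comm]
    rw [h3]
    ring
  rw [dist_eq_norm, h, norm_mul, norm_e, one_mul, Complex.norm_exp_I_mul_ofReal_sub_one,
    Real.norm_of_nonneg]
  have := Real.sin_nonneg_of_nonneg_of_le_pi (show 0 ≤ (t - s) / 2 by linarith) (by linarith)
  linarith

theorem dist_onarc_lt (x : ℂ) {s t : ℝ} (h1 : s < t) (h2 : t < s + Real.pi) :
    dist (x - AX.e s) (x - AX.e t) < 2 := by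
  rw [dist_onarc x h1.le (by linarith [Real.pi_pos])]
  have : Real.sin ((t - s) / 2) < Real.sin (Real.pi / 2) :=
    Real.sin_lt_sin_of_lt_of_le_pi_div_two (by linarith [Real.pi_pos]) le_rfl (by linarith)
  rw [Real.sin_pi_div_two] at this
  linarith

theorem lg_onarc (x : ℂ) {s t : ℝ} (h1 : s ≤ t) (h2 : t ≤ s + Real.pi) :
    lg (x - AX.e s) (x - AX.e t) = t - s := by
  rw [lg_eq, dist_onarc x h1 (by linarith [Real.pi_pos]), mul_div_cancel_left₀ _ two_ne_zero,
    Real.arcsin_sin (by linarith [Real.pi_pos]) (by linarith)]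
  ring

theorem ctan_id {δ : ℝ} (h : Real.sin δ ≠ 0) (h2 : Real.cos (δ / 2) ≠ 0) :
    ((1 / Real.sin δ : ℝ) : ℂ) * (AX.e δ - 1) = I - (Real.tan (δ / 2) : ℂ) := by
  have h3 : Real.cos δ - 1 = - (Real.tan (δ / 2) * Real.sin δ) := by
    have e1 : Real.sin δ = 2 * Real.sin (δ / 2) * Real.cos (δ / 2) := by
      rw [← Real.sin_two_mul]; congr 1; ring
    have e2 : Real.cos δ = 1 - 2 * Real.sin (δ / 2) ^ 2 := by
      have := Real.cos_two_mul (δ / 2)
      rw [show 2 * (δ / 2) = δ by ring] at this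
      have h4 := Real.sin_sq_add_cos_sq (δ / 2)
      nlinarith
    rw [Real.tan_eq_sin_div_cos, e1, e2]
    field_simp
    ring
  have h4 : AX.e δ - 1 = ((Real.cos δ - 1 : ℝ) : ℂ) + (Real.sin δ : ℂ) * I := by
    rw [e_eq]; push_cast; ring
  have h5 : ((Real.sin δ : ℝ) : ℂ) ≠ 0 := by exact_mod_cast h
  rw [h4, h3]
  push_cast
  push_cast at h5
  field_simp
  ring

theorem ONARC : ST_ONARC := by
  intro x s t h1 h2
  have hlg := lg_onarc x h1.le h2.le
  have hd := dist_onarc_lt x h1 h2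
  have htn : tn (x - AX.e s) (x - AX.e t) = Real.tan ((t - s) / 2) := by
    rw [tn_eq_tan, hlg]
  have hsin : 0 < Real.sin (t - s) := Real.sin_pos_of_pos_of_lt_pi (by linarith) (by linarith)
  have hcos : 0 < Real.cos ((t - s) / 2) :=
    Real.cos_pos_of_mem_Ioo ⟨by linarith [Real.pi_pos], by linarith⟩
  refine ⟨hlg, htn, ?_, ?_⟩
  · rw [om_eq_sin hd, hlg]
    have : AX.e t = AX.e s * AX.e (t - s) := by rw [← e_add]; congr 1; ring
    have h3 : x - AX.e s - (x - AX.e t) = AX.e s * (AX.e (t - s) - 1) := by rw [this]; ring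
    rw [h3, ← ctan_id hsin.ne' hcos.ne']
    ring
  · rw [om_eq_sin hd, hlg]
    have : AX.e s = AX.e t * AX.e (-(t - s)) := by rw [← e_add]; congr 1; ring
    have h3 : x - AX.e t - (x - AX.e s) = AX.e t * (AX.e (-(t - s)) - 1) := by rw [this]; ring
    have h4 := ctan_id (δ := -(t - s)) (by rw [Real.sin_neg]; exact neg_ne_zero.mpr hsin.ne')
      (by rw [neg_div, Real.cos_neg]; exact hcos.ne')
    rw [Real.sin_neg, neg_div, Real.tan_neg] at h4
    rw [h3]
    have h5 : ((1 / Real.sin (t - s) : ℝ) : ℂ) = - ((1 / -Real.sin (t - s) : ℝ) : ℂ) := by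
      rw [one_div_neg_eq_neg_one_div]; push_cast; ring
    rw [h5]
    rw [Complex.ofReal_neg] at h4
    linear_combination (-AX.e t) * h4

end E5
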