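import Pool.Agent.Helper71.E5.Stmts

/-! MP_efd95c_co, Alexander for at most five disks: row ACT (the tour through all fat and some
kink indices). -/

set_option autoImplicit false

open Complex

namespace E5

/-- telescoping along the consecutive integers with the property `Q` -/
theorem act_tele (F : ℤ → ℤ → ℝ) (a b : ℤ → ℝ) (Q : ℤ → Prop)
    (hF : ∀ k l, k < l → (∀ j, k < j → j < l → ¬ Q j) → F k l = a l - b k) :
    ∀ (L : List ℤ) (x y : ℤ), (x :: L).Pairwise (· < ·) → (∀ k ∈ x :: L, k < y) →
    (∀ j, x < j → j < y → Q j → j ∈ L) →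
    (List.zipWith F (x :: L) (L ++ [y])).sum =
      a y - a x - ((x :: L).map (fun k => b k - a k)).sum := by
  intro L
  induction L with
  | nil =>
    intro x y _ h2 h3
    have h4 : F x y = a y - b x := hF x y (h2 x (by simp)) fun j h5 h6 h7 => by
      simpa using h3 j h5 h6 h7
    simp [h4]
  | cons z L ih =>
    intro x y h1 h2 h3
    rw [List.pairwise_cons] at h1
    obtain ⟨h1a, h1b⟩ := h1
    have hxz : x < z := h1a z (by simp)
    have hzy : z < y := h2 z (by simp)
    have h4 : F x z = a z - b x := by
      refine hF x z hxz fun j h5 h6 h7 => ?_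
      have h8 := h3 j h5 (h6.trans hzy) h7
      rw [List.mem_cons] at h8
      rcases h8 with h8 | h8
      · exact absurd h8 h6.ne
      · have := (List.pairwise_cons.mp h1b).1 j h8
        omega
    have h5 := ih z y h1b (fun k hk => h2 k (List.mem_cons_of_mem _ hk)) fun j h5 h6 h7 => by
      have h8 := h3 j (hxz.trans h5) h6 h7
      rw [List.mem_cons] at h8
      rcases h8 with h8 | h8
      · exact absurd h8 h5.ne'
      · exact h8
    rw [List.cons_append, List.zipWith_cons_cons, List.sum_cons, h4, h5, List.map_cons,
      List.map_cons, List.map_cons, List.sum_cons, List.sum_cons, List.sum_cons]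
    ring

theorem sum_filter_zero (p : ℤ → Bool) (D : ℤ → ℝ) (hD : ∀ k, p k = false → D k = 0)
    (l : List ℤ) : ((l.filter p).map D).sum = (l.map D).sum := by
  induction l with
  | nil => simp
  | cons x l ih =>
    by_cases h : p x = true
    · rw [List.filter_cons_of_pos h, List.map_cons, List.map_cons, List.sum_cons, List.sum_cons,
        ih]
    · rw [List.filter_cons_of_neg h, List.map_cons, List.sum_cons, ih,
        hD x (by simpa using h), zero_add]

theorem ACT (hG : ST_GAP) (hP : ST_PERHD) : ST_ACT := by
  intro n c M g a b h S hS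
  rw [hP n c M g a b h]
  have hM : (0 : ℤ) < M := by have := h.two; omega
  have hF : ∀ k l : ℤ, k < l → (∀ j, k < j → j < l → ¬ g j ∈ S) →
      lg (c (g k)) (c (g l)) = a l - b k := by
    intro k l hkl hj
    refine (hG n c M g a b h k l hkl fun j h1 h2 => ?_).2.1
    by_contra h3
    exact hj j h1 h2 (hS.1 j (lt_of_le_of_ne (h.le j) h3))
  set LN : List ℤ := (List.range M).map (fun k : ℕ => (k : ℤ)) with hLN
  set LZ : List ℤ := LN.filter (fun k => decide (g k ∈ S)) with hLZ
  have hl : lst g M S = LZ.map g := by
    unfold lst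
    rw [hLZ, hLN, List.filter_map, List.filter_map, List.map_map]
    rfl
  have hmem : ∀ k : ℤ, k ∈ LZ ↔ (0 ≤ k ∧ k < M) ∧ g k ∈ S := by
    intro k
    rw [hLZ, List.mem_filter, decide_eq_true_iff, hLN, List.mem_map]
    constructor
    · rintro ⟨⟨m, hm, rfl⟩, h2⟩
      rw [List.mem_range] at hm
      exact ⟨⟨by omega, by omega⟩, h2⟩
    · rintro ⟨⟨h1, h2⟩, h3⟩
      exact ⟨⟨k.toNat, List.mem_range.mpr (by omega), by omega⟩, h3⟩
  have hsort : LZ.Pairwise (· < ·) := by
    rw [hLZ, hLN]
    refine List.Pairwise.filter _ ?_
    rw [List.pairwise_map]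
    exact List.Pairwise.imp (fun h => by exact_mod_cast h) List.pairwise_lt_range
  have hsum : (LZ.map (fun k => b k - a k)).sum =
      ∑ k ∈ Finset.range M, (b (k : ℤ) - a (k : ℤ)) := by
    rw [hLZ, sum_filter_zero _ _ _ LN, hLN, List.map_map]
    · rfl
    · intro k hk
      rw [decide_eq_false_iff_not] at hk
      by_contra h3
      exact hk (hS.1 k (lt_of_le_of_ne (h.le k) fun h4 => h3 (by rw [h4]; ring)))
  rw [← hsum]
  unfold ctour
  rw [hl]
  cases hc : LZ with
  | nil =>
    exfalso
    have h1 := (hG n c M g a b h 0 M hM fun j _ _ => by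
      by_contra h3
      have h4 := hS.1 j (lt_of_le_of_ne (h.le j) h3)
      have h5 : j % M ∈ LZ := by
        rw [hmem]
        refine ⟨⟨Int.emod_nonneg j hM.ne', Int.emod_lt_of_pos j hM⟩, ?_⟩
        have h6 : g (j % M + (j / M) * M) = g (j % M) :=
          Function.Periodic.int_mul (f := g) (c := (M : ℤ)) h.gper (j / M) (j % M)
        rw [Int.emod_add_ediv_mul] at h6
        rw [← h6]
        exact h4
      rw [hc] at h5
      simp at h5).1
    have h2 := h.aper 0
    rw [zero_add] at h2
    have h3 := h.ltpi 0
    linarith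
  | cons x L =>
    have hx : x ∈ LZ := by rw [hc]; simp
    have hx2 := (hmem x).mp hx
    have h1 := act_tele (fun k l => lg (c (g k)) (c (g l))) a b (fun j => g j ∈ S) hF L x (x + M)
      (by rw [← hc]; exact hsort) (fun k hk => by
        rw [← hc, hmem] at hk
        omega) (fun j h2 h3 h4 => by
        by_cases h5 : j < M
        · have h6 : j ∈ LZ := (hmem j).mpr ⟨⟨by omega, h5⟩, h4⟩
          rw [hc, List.mem_cons] at h6
          rcases h6 with h6 | h6
          · omega
          · exact h6
        · exfalso
          have h6 : g (j - M) ∈ S := by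
            have := h.gper (j - M)
            rw [sub_add_cancel] at this
            rw [← this]
            exact h4
          have h7 : j - M ∈ LZ := (hmem _).mpr ⟨⟨by omega, by omega⟩, h6⟩
          rw [hc, List.mem_cons] at h7
          rw [hc] at hsort
          rcases h7 with h7 | h7
          · omega
          · have := (List.pairwise_cons.mp hsort).1 _ h7
            omega)
    have h2 : ((x :: L).map g).rotate 1 = (L ++ [x + (M : ℤ)]).map g := by
      rw [List.map_cons, List.rotate_cons_succ, List.rotate_zero, List.map_append, List.map_cons,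
        List.map_nil, h.gper]
    rw [h2, List.zipWith_map, h1, h.aper]
    ring

end E5
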