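import Pool.Agent.Helper26.E5.EFF

/-! MP_efd95c_co, Alexander for at most five disks: row CGQ (loads of a full family). -/

set_option autoImplicit false

open Complex

namespace E5

theorem hd_surj {n : ℕ} {c : Fin n → ℂ} {g : ℤ → Fin n} {a b : ℤ → ℝ} (h : HD c n g a b)
    (i : Fin n) : ∃ k : ℤ, g k = i := by
  have hn : (0 : ℤ) < n := by have := h.two; omega
  have hinj : Function.Injective (fun k : Fin n => g ((k : ℕ) : ℤ)) := by
    intro k l hkl
    obtain ⟨t, ht⟩ := h.ginj _ _ hkl
    have h1 := k.isLt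
    have h2 := l.isLt
    have h4 : t < 1 := by
      by_contra hc
      have : (n : ℤ) * 1 ≤ n * t := mul_le_mul_of_nonneg_left (by omega) hn.le
      omega
    have h5 : -1 < t := by
      by_contra hc
      have : (n : ℤ) * t ≤ n * (-1) := mul_le_mul_of_nonneg_left (by omega) hn.le
      omega
    have : t = 0 := by omega
    subst this
    apply Fin.ext
    omega
  obtain ⟨k, hk⟩ := (Finite.injective_iff_surjective.mp hinj) i
  exact ⟨_, hk⟩

theorem CGQ (hO : ST_ONARC) (hG : ST_GAP) (hD : ST_D2) (hL : ST_LG) : ST_CGQ := by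
  intro n c g a b h
  have hA : Adm g a b Finset.univ :=
    ⟨fun _ _ => Finset.mem_univ _, fun i _ => hd_surj h i⟩
  have hc := h.cyc
  have hN : ∀ k, Nx g (Finset.univ : Finset (Fin n)) k (k + 1) := fun k =>
    ⟨by omega, Finset.mem_univ _, Finset.mem_univ _, fun j h1 h2 => by omega⟩
  refine ⟨fun k => ?_, ?_⟩
  · rw [adm_load hO hG hD hL h hA (Finset.mem_univ (g k)), nxF_eq hc (hN k)]
    have h1 := hN (k - 1)
    rw [sub_add_cancel] at h1
    rw [pvF_eq hc h1]
  · unfold ctan
    rw [zip_sum hc hA.2]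
    have h1 := sum_period hc hA.2
      (fun i => 2 * tn (c i) (c (nxF g (Finset.univ : Finset (Fin n)) i)))
    rw [← h1]
    refine Finset.sum_congr rfl fun k _ => ?_
    rw [if_pos (Finset.mem_univ _), nxF_eq hc (hN k)]

end E5
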