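import Pool.Agent.Helper72.E5.A
import Pool.Agent.Helper71.E5.AXAll

/-! MP_efd95c_co, Alexander for at most five disks: row COLL (points on a segment). -/

set_option autoImplicit false

open Complex MeasureTheory

namespace E5

theorem arcsin_add {x y : ℝ} (hx : 0 ≤ x) (hy : 0 ≤ y) (h : x + y ≤ 1) :
    Real.arcsin x + Real.arcsin y ≤ Real.arcsin (x + y) := by
  have hx1 : x ≤ 1 := by linarith
  have hy1 : y ≤ 1 := by linarith
  have hpi := Real.pi_pos
  have h1 : Real.arcsin x ≤ Real.pi / 2 - Real.arcsin y := by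
    rw [← Real.arccos_eq_pi_div_two_sub_arcsin,
      Real.arcsin_le_iff_le_sin ⟨by linarith, hx1⟩
        ⟨by linarith [Real.arccos_nonneg y], Real.arccos_le_pi_div_two.mpr hy⟩,
      Real.sin_arccos]
    have h9 : x ^ 2 ≤ 1 - y ^ 2 := by nlinarith [mul_nonneg hx hy]
    exact (le_abs_self x).trans (Real.abs_le_sqrt h9)
  have h2 : 0 ≤ Real.arcsin x := Real.arcsin_nonneg.mpr hx
  have h3 : 0 ≤ Real.arcsin y := Real.arcsin_nonneg.mpr hy
  rw [Real.le_arcsin_iff_sin_le ⟨by linarith, by linarith⟩ ⟨by linarith, h⟩, Real.sin_add,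
    Real.sin_arcsin (by linarith) hx1, Real.sin_arcsin (by linarith) hy1]
  have h4 := mul_le_mul_of_nonneg_left (Real.cos_le_one (Real.arcsin y)) hx
  have h5 := mul_le_mul_of_nonneg_right (Real.cos_le_one (Real.arcsin x)) hy
  linarith

theorem arcsin_sum : ∀ (m : ℕ) (x : Fin (m + 1) → ℝ), Monotone x → x (Fin.last m) - x 0 ≤ 1 →
    ∑ k : Fin m, Real.arcsin (x k.succ - x k.castSucc) ≤ Real.arcsin (x (Fin.last m) - x 0) := by
  intro m
  induction m with
  | zero =>
    intro x _ _
    simp
  | succ m ih =>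
    intro x hx h1
    rw [Fin.sum_univ_castSucc]
    have h2 : x (Fin.last m).castSucc ≤ x (Fin.last (m + 1)) := hx (Fin.le_last _)
    have h3 : x 0 ≤ x (Fin.last m).castSucc := hx (Fin.zero_le _)
    have h4 := ih (fun i => x i.castSucc) (fun i j hij => hx (Fin.castSucc_le_castSucc_iff.mpr hij))
      (by
        show x (Fin.last m).castSucc - x (Fin.castSucc 0) ≤ 1
        rw [Fin.castSucc_zero]
        linarith)
    have h5 : x (Fin.castSucc (0 : Fin (m + 1))) = x 0 := by rw [Fin.castSucc_zero]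
    simp only [h5] at h4
    have h6 := arcsin_add (x := x (Fin.last m).castSucc - x 0)
      (y := x (Fin.last (m + 1)) - x (Fin.last m).castSucc) (by linarith) (by linarith)
      (by linarith)
    have h7 : x (Fin.last m).castSucc - x 0 + (x (Fin.last (m + 1)) - x (Fin.last m).castSucc) =
      x (Fin.last (m + 1)) - x 0 := by ring
    rw [h7] at h6
    have h8 : ∀ k : Fin m, (k.castSucc).succ = (k.succ).castSucc := fun k => rfl
    simp only [h8, Fin.succ_last]
    linarith

theorem coll_T {x y : ℂ} (hne : x ≠ y) (hd : dist x y ≤ 2) :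
    ∃ θ : ℝ, dist (x + AX.e θ) x ≤ 1 ∧ dist (x + AX.e θ) y ≤ 1 := by
  have h0 : 0 < ‖y - x‖ := norm_pos_iff.mpr (sub_ne_zero.mpr hne.symm)
  have h2 : ‖y - x‖ ≤ 2 := by rw [← dist_eq_norm, dist_comm]; exact hd
  refine ⟨Complex.arg (y - x), ?_, ?_⟩
  · rw [dist_eq_norm, add_sub_cancel_left]
    unfold AX.e
    rw [Complex.norm_exp_ofReal_mul_I]
  · have h1 : y - x = (‖y - x‖ : ℂ) * AX.e (Complex.arg (y - x)) := by
      unfold AX.e
      rw [Complex.norm_mul_exp_arg_mul_I]
    rw [dist_eq_norm]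
    have h3 : x + AX.e (Complex.arg (y - x)) - y =
        ((1 - ‖y - x‖ : ℝ) : ℂ) * AX.e (Complex.arg (y - x)) := by
      push_cast
      linear_combination (-1 : ℂ) * h1
    rw [h3, norm_mul, Complex.norm_real]
    unfold AX.e
    rw [Complex.norm_exp_ofReal_mul_I, mul_one, Real.norm_eq_abs, abs_le]
    constructor <;> linarith

theorem coll_per {x y : ℂ} (hne : x ≠ y) (hd : dist x y ≤ 2) :
    μH[1] (frontier (AX.K 1 ![x, y])) = ENNReal.ofReal (2 * (Real.pi - 2 * AX.dl 1 x y)) := by
  have hinj : Function.Injective (![x, y] : Fin 2 → ℂ) := by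
    intro i j hij
    fin_cases i <;> fin_cases j
    · rfl
    · exact absurd hij hne
    · exact absurd hij hne.symm
    · rfl
  have hT : ∀ i : Fin 2, (AX.T 1 (![x, y] : Fin 2 → ℂ) i).Nonempty := by
    intro i
    fin_cases i
    · obtain ⟨θ, h1, h2⟩ := coll_T hne hd
      refine ⟨θ, ?_⟩
      show (x + ((1 : ℝ) : ℂ) * AX.e θ) ∈ AX.K 1 ![x, y]
      rw [Complex.ofReal_one, one_mul, mem_K]
      intro j
      fin_cases j
      · exact h1
      · exact h2
    · obtain ⟨θ, h1, h2⟩ := coll_T hne.symm (by rw [dist_comm]; exact hd)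
      refine ⟨θ, ?_⟩
      show (y + ((1 : ℝ) : ℂ) * AX.e θ) ∈ AX.K 1 ![x, y]
      rw [Complex.ofReal_one, one_mul, mem_K]
      intro j
      fin_cases j
      · exact h2
      · exact h1
  obtain ⟨σ, t, -, -, -, h⟩ := axFORM 0 1 ![x, y] one_pos hinj hT
  rw [h]
  congr 1
  have hsym : AX.dl 1 y x = AX.dl 1 x y := by unfold AX.dl; rw [dist_comm]
  have h2 : ∀ i j : Fin 2, i ≠ j → AX.dl 1 ((![x, y] : Fin 2 → ℂ) i) ((![x, y] : Fin 2 → ℂ) j) =
      AX.dl 1 x y := by
    intro i j hij
    fin_cases i <;> fin_cases j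
    · exact absurd rfl hij
    · rfl
    · exact hsym
    · exact absurd rfl hij
  have h01 : σ 0 ≠ σ 1 := fun hh => by
    have := σ.injective hh
    exact absurd this (by decide)
  unfold AX.tour
  rw [Fin.sum_univ_one]
  have e1 := h2 (σ 0) (σ 1) h01
  have e2 := h2 (σ 1) (σ 0) h01.symm
  have e3 : (Fin.castSucc (0 : Fin 1)) = (0 : Fin 2) := rfl
  have e4 : (Fin.succ (0 : Fin 1)) = (1 : Fin 2) := rfl
  have e5 : (Fin.last 1) = (1 : Fin 2) := rfl
  show 2 * 1 * (Real.pi - (AX.dl 1 (![x, y] (σ (Fin.castSucc (0 : Fin 1))))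
    (![x, y] (σ (Fin.succ (0 : Fin 1)))) + AX.dl 1 (![x, y] (σ (Fin.last 1)))
    (![x, y] (σ 0)))) = _
  rw [e3, e4, e5, e1, e2]
  ring

theorem COLL : ST_COLL := by
  rintro n p q hc hq hT ⟨u, v, huv⟩
  have hne : p u ≠ p v := by
    intro he
    have h1 : ∀ i, p i = p u := by
      intro i
      have := huv i
      rw [← he, segment_same] at this
      exact this
    have h2 : dist (q 0) (q 1) ≤ 0 := by
      have := hc 0 1
      rw [h1 0, h1 1, dist_self] at this
      exact this
    have h3 : q 0 = q 1 := dist_le_zero.mp h2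
    exact absurd (hq h3) (by
      intro h4
      have := congrArg Fin.val h4
      simp at this)
  have hK : AX.K 1 p = AX.K 1 ![p u, p v] := by
    ext x
    rw [mem_K, mem_K]
    constructor
    · intro h i
      fin_cases i
      · exact h u
      · exact h v
    · intro h i
      have h0 : dist x (p u) ≤ 1 := h 0
      have h1 : dist x (p v) ≤ 1 := h 1
      have h2 := (convex_closedBall x 1).segment_subset
        (Metric.mem_closedBall'.mpr h0) (Metric.mem_closedBall'.mpr h1) (huv i)
      exact Metric.mem_closedBall'.mp h2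
  have hs : ∀ i, ∃ s : ℝ, (0 ≤ s ∧ s ≤ 1) ∧ p i = p u + (s : ℂ) * (p v - p u) := by
    intro i
    have h1 := huv i
    rw [segment_eq_image'] at h1
    obtain ⟨s, hs, h2⟩ := h1
    exact ⟨s, ⟨hs.1, hs.2⟩, by rw [← h2]; simp⟩
  choose s hs0 hs1 using hs
  have hd0 : 0 < dist (p u) (p v) := dist_pos.mpr hne
  have hdist : ∀ i j, dist (p i) (p j) = |s i - s j| * dist (p u) (p v) := by
    intro i j
    have h1 : p i - p j = ((s i - s j : ℝ) : ℂ) * (p v - p u) := by
      rw [hs1 i, hs1 j]; push_cast; ring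
    rw [dist_eq_norm, h1, norm_mul, Complex.norm_real, Real.norm_eq_abs, dist_comm (p u),
      dist_eq_norm]
  unfold per
  rw [hK]
  by_cases hd : dist (p u) (p v) ≤ 2
  · rw [coll_per hne hd]
    refine (ENNReal.toReal_mono (FIN _ q) ?_)
    refine le_trans (ENNReal.ofReal_le_ofReal ?_)
      (axTOUR n 1 q (fun k => Tuple.sort s k) one_pos hq hT (Tuple.sort s).injective)
    rw [mul_one]
    have hmono : Monotone (fun k => s (Tuple.sort s k) * (dist (p u) (p v) / 2)) := by
      intro i j hij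
      exact mul_le_mul_of_nonneg_right (Tuple.monotone_sort s hij) (by linarith)
    have hD : ∀ i j : Fin (n + 2), i ≤ j →
        AX.dl 1 (q (Tuple.sort s i)) (q (Tuple.sort s j)) ≤
        Real.arcsin (s (Tuple.sort s j) * (dist (p u) (p v) / 2) -
          s (Tuple.sort s i) * (dist (p u) (p v) / 2)) := by
      intro i j hij
      unfold AX.dl
      apply Real.monotone_arcsin
      have h1 := hc (Tuple.sort s i) (Tuple.sort s j)
      have h2 : s (Tuple.sort s i) ≤ s (Tuple.sort s j) := Tuple.monotone_sort s hij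
      rw [hdist, abs_of_nonpos (by linarith)] at h1
      rw [mul_one]
      nlinarith
    have hlast : s (Tuple.sort s (Fin.last (n + 1))) * (dist (p u) (p v) / 2) -
        s (Tuple.sort s 0) * (dist (p u) (p v) / 2) ≤ dist (p u) (p v) / 2 := by
      have h1 := (hs0 (Tuple.sort s (Fin.last (n + 1)))).2
      have h2 := (hs0 (Tuple.sort s 0)).1
      nlinarith
    have hsum := arcsin_sum (n + 1) (fun k => s (Tuple.sort s k) * (dist (p u) (p v) / 2)) hmono
      (by show _ ≤ (1 : ℝ); linarith)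
    have hfin : Real.arcsin (s (Tuple.sort s (Fin.last (n + 1))) * (dist (p u) (p v) / 2) -
        s (Tuple.sort s 0) * (dist (p u) (p v) / 2)) ≤ AX.dl 1 (p u) (p v) := by
      unfold AX.dl
      apply Real.monotone_arcsin
      rw [mul_one]
      exact hlast
    have htour : AX.tour (fun i j => AX.dl 1 (q i) (q j)) (fun k => Tuple.sort s k) ≤
        2 * AX.dl 1 (p u) (p v) := by
      unfold AX.tour
      have h1 : ∑ k : Fin (n + 1), AX.dl 1 (q (Tuple.sort s k.castSucc)) (q (Tuple.sort s k.succ))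
          ≤ ∑ k : Fin (n + 1), Real.arcsin (s (Tuple.sort s k.succ) * (dist (p u) (p v) / 2) -
          s (Tuple.sort s k.castSucc) * (dist (p u) (p v) / 2)) :=
        Finset.sum_le_sum fun k _ => hD _ _ (Fin.castSucc_le_succ k)
      have h2 : AX.dl 1 (q (Tuple.sort s (Fin.last (n + 1)))) (q (Tuple.sort s 0)) ≤
          Real.arcsin (s (Tuple.sort s (Fin.last (n + 1))) * (dist (p u) (p v) / 2) -
          s (Tuple.sort s 0) * (dist (p u) (p v) / 2)) := by
        have h3 := hD 0 (Fin.last (n + 1)) (Fin.zero_le _)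
        have h4 : AX.dl 1 (q (Tuple.sort s (Fin.last (n + 1)))) (q (Tuple.sort s 0)) =
          AX.dl 1 (q (Tuple.sort s 0)) (q (Tuple.sort s (Fin.last (n + 1)))) := by
          unfold AX.dl; rw [dist_comm]
        rw [h4]; exact h3
      linarith
    linarith
  · have hE : AX.K 1 ![p u, p v] = ∅ := by
      rw [Set.eq_empty_iff_forall_notMem]
      intro x hx
      rw [mem_K] at hx
      have h0 : dist x (p u) ≤ 1 := hx 0
      have h1 : dist x (p v) ≤ 1 := hx 1
      have h2 := dist_triangle_left (p u) (p v) x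
      exact hd (by linarith)
    rw [hE, frontier_empty, measure_empty]
    exact ENNReal.toReal_nonneg

end E5
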