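import Pool.Agent.Helper71.E5.Stmts
import Pool.Agent.Helper71.E5.AXAll

/-! MP_efd95c_co, Alexander for at most five disks: row PERHD (the perimeter from hull data). -/

set_option autoImplicit false

open Complex MeasureTheory

namespace E5

theorem HD.g_add {n : ℕ} {c : Fin n → ℂ} {M : ℕ} {g : ℤ → Fin n} {a b : ℤ → ℝ}
    (h : HD c M g a b) (k z : ℤ) : g (k + z * M) = g k :=
  Function.Periodic.int_mul (f := g) (c := (M : ℤ)) h.gper z k

theorem HD.a_add {n : ℕ} {c : Fin n → ℂ} {M : ℕ} {g : ℤ → Fin n} {a b : ℤ → ℝ}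
    (h : HD c M g a b) (k z : ℤ) : a (k + z * M) = a k + z * (2 * Real.pi) := by
  induction z using Int.induction_on with
  | zero => simp
  | succ i ih =>
    have h1 := h.aper (k + i * M)
    rw [ih] at h1
    rw [show k + (i + 1 : ℤ) * M = k + i * M + M by ring, h1]
    push_cast; ring
  | pred i ih =>
    have h1 := h.aper (k + (-i - 1) * M)
    rw [show k + (-i - 1 : ℤ) * M + M = k + -i * M by ring, ih] at h1
    have : a (k + (-i - 1 : ℤ) * M) = a k + ((-i : ℤ) : ℝ) * (2 * Real.pi) - 2 * Real.pi := by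
      linarith
    rw [this]; push_cast; ring

theorem HD.b_add {n : ℕ} {c : Fin n → ℂ} {M : ℕ} {g : ℤ → Fin n} {a b : ℤ → ℝ}
    (h : HD c M g a b) (k z : ℤ) : b (k + z * M) = b k + z * (2 * Real.pi) := by
  induction z using Int.induction_on with
  | zero => simp
  | succ i ih =>
    have h1 := h.bper (k + i * M)
    rw [ih] at h1
    rw [show k + (i + 1 : ℤ) * M = k + i * M + M by ring, h1]
    push_cast; ring
  | pred i ih =>
    have h1 := h.bper (k + (-i - 1) * M)
    rw [show k + (-i - 1 : ℤ) * M + M = k + -i * M by ring, ih] at h1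
    have : b (k + (-i - 1 : ℤ) * M) = b k + ((-i : ℤ) : ℝ) * (2 * Real.pi) - 2 * Real.pi := by
      linarith
    rw [this]; push_cast; ring

/-- every touching index is `g k` with `k` in one period -/
theorem HD.rep {n : ℕ} {c : Fin n → ℂ} {M : ℕ} {g : ℤ → Fin n} {a b : ℤ → ℝ}
    (h : HD c M g a b) (k : ℤ) : ∃ m : ℕ, m < M ∧ g m = g k := by
  have hM : (0 : ℤ) < M := by have := h.two; omega
  have h1 := Int.emod_nonneg k hM.ne'
  have h2 := Int.emod_lt_of_pos k hM
  refine ⟨(k % M).toNat, by omega, ?_⟩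
  rw [Int.toNat_of_nonneg h1]
  have h3 := h.g_add (k % M) (k / M)
  rw [← h3, Int.emod_add_ediv_mul]

theorem HD.inj_range {n : ℕ} {c : Fin n → ℂ} {M : ℕ} {g : ℤ → Fin n} {a b : ℤ → ℝ}
    (h : HD c M g a b) {k l : ℕ} (hk : k < M) (hl : l < M) (e : g k = g l) : k = l := by
  have h1 := h.ginj k l e
  obtain ⟨z, hz⟩ := h1
  have hM : (0 : ℤ) < M := by have := h.two; omega
  have h2 : (l : ℤ) - k < M := by omega
  have h3 : -(M : ℤ) < (l : ℤ) - k := by omega
  have h4 : z < 1 := by
    by_contra hc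
    have : (M : ℤ) * 1 ≤ M * z := mul_le_mul_of_nonneg_left (by omega) hM.le
    omega
  have h5 : -1 < z := by
    by_contra hc
    have : (M : ℤ) * z ≤ M * (-1) := mul_le_mul_of_nonneg_left (by omega) hM.le
    omega
  have : z = 0 := by omega
  subst this
  simp at hz
  omega

theorem PERHD : ST_PERHD := by
  intro n c M g a b h
  classical
  obtain ⟨n, rfl⟩ : ∃ m, n = m + 1 := by
    cases n with
    | zero => exact (g 0).elim0
    | succ m => exact ⟨m, rfl⟩
  let D : ℤ → ℝ := fun k => b k - a k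
  have hD0 : ∀ k, 0 ≤ D k := fun k => sub_nonneg.mpr (h.le k)
  let s : Fin (n + 1) → ℝ := fun i => if hi : ∃ k, g k = i then a (Classical.choose hi) else 0
  have hper := axPER n 1 c s one_pos h.inj
  have hval : ∀ k : ℤ, volume (AX.T 1 c (g k) ∩ Set.Ico (s (g k)) (s (g k) + 2 * Real.pi)) =
      ENNReal.ofReal (D k) := by
    intro k
    have hi : ∃ l, g l = g k := ⟨k, rfl⟩
    have hs : s (g k) = a (Classical.choose hi) := by
      simp only [s]; rw [dif_pos hi]
    obtain ⟨z, hz⟩ := h.ginj _ _ (Classical.choose_spec hi).symm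
    set l := Classical.choose hi with hl
    have hlk : l = k + z * M := by linarith
    have hal : a l = a k + z * (2 * Real.pi) := by rw [hlk]; exact h.a_add k z
    have hbl : b l = b k + z * (2 * Real.pi) := by rw [hlk]; exact h.b_add k z
    have hgl : g l = g k := Classical.choose_spec hi
    have hset : AX.T 1 c (g k) ∩ Set.Ico (s (g k)) (s (g k) + 2 * Real.pi) =
        Set.Icc (a l) (b l) := by
      rw [hs]
      ext θ
      constructor
      · rintro ⟨h1, h2, h3⟩
        rw [← hgl] at h1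
        exact ⟨h2, (h.mem l θ h2 h3).mp h1⟩
      · rintro ⟨h1, h2⟩
        have h3 : θ < a l + 2 * Real.pi := by
          have := h.ltpi l
          have := Real.pi_pos
          linarith
        refine ⟨?_, h1, h3⟩
        rw [← hgl]
        exact (h.mem l θ h1 h3).mpr h2
    rw [hset, Real.volume_Icc]
    congr 1
    simp only [D]
    linarith
  have hzero : ∀ i, (¬ ∃ k, g k = i) →
      volume (AX.T 1 c i ∩ Set.Ico (s i) (s i + 2 * Real.pi)) = 0 := by
    intro i hi
    have : AX.T 1 c i = ∅ := by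
      rw [← Set.not_nonempty_iff_eq_empty]
      exact fun h1 => hi (h.cov i h1)
    rw [this]
    simp
  have hsum : ∑ i, volume (AX.T 1 c i ∩ Set.Ico (s i) (s i + 2 * Real.pi)) =
      ∑ k ∈ Finset.range M, ENNReal.ofReal (D (k : ℤ)) := by
    have h1 : ∑ k ∈ Finset.range M, ENNReal.ofReal (D (k : ℤ)) =
        ∑ k ∈ Finset.range M, (fun i => volume (AX.T 1 c i ∩
          Set.Ico (s i) (s i + 2 * Real.pi))) (g (k : ℤ)) :=
      Finset.sum_congr rfl fun k _ => (hval k).symm
    rw [h1, ← Finset.sum_image (s := Finset.range M) (g := fun k : ℕ => g (k : ℤ))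
      (f := fun i => volume (AX.T 1 c i ∩ Set.Ico (s i) (s i + 2 * Real.pi)))]
    · symm
      apply Finset.sum_subset (Finset.subset_univ _)
      intro i _ hi
      apply hzero
      rintro ⟨k, rfl⟩
      obtain ⟨m, hm, hmk⟩ := h.rep k
      exact hi (Finset.mem_image.mpr ⟨m, Finset.mem_range.mpr hm, hmk⟩)
    · intro k hk l hl e
      exact h.inj_range (Finset.mem_range.mp (Finset.mem_coe.mp hk))
        (Finset.mem_range.mp (Finset.mem_coe.mp hl)) e
  unfold per
  rw [hper, hsum, ENNReal.ofReal_one, one_mul, ENNReal.toReal_sum (fun _ _ => ENNReal.ofReal_ne_top)]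
  exact Finset.sum_congr rfl fun k _ => ENNReal.toReal_ofReal (hD0 k)

end E5
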